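import Pool.Agent.Helper90.TS.Stmts

/-!
# DAT1: a sequence for which the main lemma fails has a `Dat`
-/

set_option autoImplicit false

namespace Pool.Agent.Helper90.TS

variable {V G : Type} [Group G] [MulAction G V]

theorem dat1_fin_ini {A : Set V} {d : ℕ → V} {S : Set V} (hS : S.Finite)
    (h : S ⊆ A ∪ Set.range d) : ∃ n, S ⊆ A ∪ ini d n := by
  induction S, hS using Set.Finite.induction_on with
  | empty => exact ⟨0, Set.empty_subset _⟩
  | @insert a s _ _ ih =>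
    obtain ⟨n, hn⟩ := ih (fun x hx => h (Or.inr hx))
    rcases h (Or.inl rfl) with ha | ⟨i, hi⟩
    · exact ⟨n, fun x hx => hx.elim (fun e => e ▸ Or.inl ha) (fun hx => hn hx)⟩
    · refine ⟨max n (i + 1), fun x hx => ?_⟩
      rcases hx with e | hx
      · exact Or.inr ⟨i, by omega, by rw [hi, e]⟩
      · exact (hn hx).imp id (fun h => ini_mono (le_max_left _ _) h)

/-- `Sta` is invariant -/
theorem dat1_sta (hRB : ST_RBAS) (hRK : ST_RKB) (X : Ctx V G) {A : Set V} {ι : Type} [Finite ι]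
    {b : ι → V} (g : G) (h : Sta X A b) : Sta X (tr g A) (g • b) := by
  obtain ⟨-, -, r3, -, -⟩ := hRB V G X ι
  obtain ⟨-, -, -, -, k5, -⟩ := hRK V G X ι b
  obtain ⟨D, hD, hb, h1, h2, h3⟩ := h
  refine ⟨{x | g⁻¹ • x ∈ D}, ?_, ?_, ?_⟩
  · have := ov_smul hD g⁻¹
    rwa [inv_inv] at this
  · change g⁻¹ • g • b ∈ D
    rwa [inv_smul_smul]
  · rw [k5]
    refine ⟨(r3 _ D g⁻¹).2 h1, fun h => h2 ((r3 _ D g⁻¹).1 h), ?_⟩
    intro E F hE hF hEF hE1 hF1
    refine h3 {x | g • x ∈ E} {x | g • x ∈ F} ?_ ?_ ?_ ((r3 _ E g).2 hE1) ((r3 _ F g).2 hF1)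
    · intro x hx
      have := hE hx
      change g⁻¹ • g • x ∈ D at this
      rwa [inv_smul_smul] at this
    · intro x hx
      have := hF hx
      change g⁻¹ • g • x ∈ D at this
      rwa [inv_smul_smul] at this
    · rw [Set.disjoint_left] at hEF ⊢
      intro x hx1 hx2
      exact hEF hx1 hx2

/-- the module DAT1 -/
theorem st_DAT1 (hRB : ST_RBAS) (hRK : ST_RKB) (hRL : ST_RKL) (hFS : ST_FSUP) (hUN : ST_UNID)
    (hST : ST_STAT) (hAC : ST_ACLB) : ST_DAT1 := by
  intro V G _ _ X A hA ι _ b d h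
  have hRc : (A ∪ Set.range d).Countable := hA.countable.union (Set.countable_range d)
  set α := X.rk (A ∪ Set.range d) b with hα
  -- rank over a finite piece
  obtain ⟨A0, hA0, hA0f, hA0r⟩ := hRL V G X _ hRc ι b
  obtain ⟨n0, hn0⟩ := dat1_fin_ini hA0f hA0
  have hmono : ∀ (b : ι → V) (B C : Set V), B ⊆ C → X.rk C b ≤ X.rk B b := fun b B C hBC =>
    (hRK V G X ι b).2.2.2.1 B C hBC
  have hsub : ∀ n, A ∪ ini d n ⊆ A ∪ Set.range d := fun n =>
    Set.union_subset_union_right A (ini_subset d n)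
  have hrk0 : ∀ n, n0 ≤ n → X.rk (A ∪ ini d n) b = α := by
    intro n hn
    refine le_antisymm ?_ (hmono b _ _ (hsub n))
    rw [hα, ← hA0r]
    exact hmono b _ _ (hn0.trans (Set.union_subset_union_right A (ini_mono hn)))
  -- a definable set isolating the type
  obtain ⟨D, hD, hbD, -, hD2⟩ := hUN V G X _ hRc ι b
  obtain ⟨m, a, E, ha, hE, hDE⟩ := hFS V G X _ hRc ι D hD
  obtain ⟨n1', hn1'⟩ := dat1_fin_ini (Set.finite_range a) ha
  set n1 := max n0 n1' with hn1
  have hDn : X.Ov (A ∪ ini d n1) D := by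
    rw [hDE]
    exact ov_sec' (ov_mono X (Set.empty_subset _) hE)
      (hn1'.trans (Set.union_subset_union_right A (ini_mono (le_max_right _ _))))
  choose bb hbb1 hbb2 using h
  choose g hg1 hg2 using hbb1
  set A1 : Set V := A ∪ ini d n1 with hA1
  have hA1f : A1.Finite := hA.union (ini_finite d n1)
  have hgA1 : ∀ n, n1 ≤ n → g n ∈ Fx G A1 := fun n hn =>
    fx_anti (Set.union_subset_union_right A (ini_mono hn)) (hg1 n)
  have hbD' : ∀ n, n1 ≤ n → bb n ∈ D := by
    intro n hn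
    rw [← hg2 n]
    exact hDn.2 (g n) (hgA1 n hn) b hbD
  have hne : ∀ n, n1 ≤ n → X.rk (A ∪ Set.range d) (bb n) ≠ α := fun n hn he =>
    hbb2 n (hD2 (bb n) (hbD' n hn) he)
  have heq : ∀ n, n1 ≤ n → X.rk (A ∪ ini d n) (bb n) = α := by
    intro n hn
    have h1 := (hRK V G X ι b).2.2.2.2.2 (A ∪ ini d n) (bb n) ⟨g n, hg1 n, hg2 n⟩
    rw [h1]
    exact hrk0 n ((le_max_left _ _).trans hn)
  -- stationarity over finitely many algebraic elements
  obtain ⟨e, he1, he2, he3⟩ := hST V G X A1 hA1f.countable ι b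
  obtain ⟨a1, a2, a3, a4, a5, a6, a7⟩ := hAC V G X A1 hA1f.countable
  have : Finite e := he2
  set eps : e → V := fun x => (x : V) with heps
  have hepsr : Set.range eps = e := Subtype.range_coe
  have hFin := a7 e eps (by rw [hepsr]; exact he1)
  set F := {e' : e → V | ∃ g ∈ Fx G A1, g • eps = e'} with hF
  have : Finite F := hFin
  let f : ℕ → F := fun n => ⟨g (n1 + n) • eps, g (n1 + n), hgA1 _ (Nat.le_add_right _ _), rfl⟩
  obtain ⟨y, hy⟩ := Finite.exists_infinite_fiber f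
  have hyI : (f ⁻¹' {y}).Infinite := Set.infinite_coe_iff.1 hy
  obtain ⟨ns, hns, -⟩ := hyI.exists_gt 0
  have hfy : ∀ n ∈ f ⁻¹' {y}, g (n1 + n) • eps = y.1 := by
    intro n hn
    have : f n = y := hn
    rw [← this]
  set A' : Set V := A1 ∪ Set.range y.1 with hA'
  set bs := bb (n1 + ns) with hbs
  have htr : tr (g (n1 + ns)) (A1 ∪ e) = A' := by
    rw [tr_union, tr_fx (hgA1 _ (Nat.le_add_right _ _)), hA']
    congr 1
    rw [← hfy ns hns, ← tr_range, hepsr]
  have hSta : Sta X A' bs := by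
    have h1 := dat1_sta hRB hRK X (g (n1 + ns)) he3
    rw [htr, hg2] at h1
    exact h1
  have hrkb : X.rk (A1 ∪ e) b = α := by
    rw [a6 e ι b he1]
    exact hrk0 n1 (le_max_left _ _)
  have hrks : X.rk A' bs = α := by
    have h1 := (hRK V G X ι b).2.2.2.2.1 (A1 ∪ e) (g (n1 + ns))
    rw [htr, hg2, hrkb] at h1
    exact h1
  have hyacl : Set.range y.1 ⊆ acl G A1 := by
    rw [← hfy ns hns, ← tr_range, hepsr]
    have h1 := a4 (g (n1 + ns))
    rw [tr_fx (hgA1 _ (Nat.le_add_right _ _))] at h1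
    rw [h1]
    exact Set.image_mono he1
  refine ⟨A', bs, hA1f.union (Set.finite_range _), hSta, ?_⟩
  intro N
  obtain ⟨n, hn, hnN⟩ := hyI.exists_gt N
  refine ⟨n1 + n, by omega, bb (n1 + n), ?_, ?_, ?_⟩
  · refine ⟨g (n1 + n) * (g (n1 + ns))⁻¹, ?_, ?_⟩
    · rw [hA', fx_union]
      refine ⟨mul_mem (hgA1 _ (Nat.le_add_right _ _)) (inv_mem (hgA1 _ (Nat.le_add_right _ _))), ?_⟩
      rw [fx_range, mul_smul]
      have h1 : (g (n1 + ns))⁻¹ • y.1 = eps := by
        rw [← hfy ns hns, inv_smul_smul]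
      rw [h1, hfy n hn]
    · rw [hbs, ← hg2 (n1 + ns), mul_smul, inv_smul_smul, hg2]
  · have h1 : A' ∪ ini d (n1 + n) = (A ∪ ini d (n1 + n)) ∪ Set.range y.1 := by
      rw [hA', hA1]
      have h2 : ini d n1 ∪ ini d (n1 + n) = ini d (n1 + n) :=
        Set.union_eq_self_of_subset_left (ini_mono (Nat.le_add_right _ _))
      rw [Set.union_right_comm, Set.union_assoc A, h2]
    obtain ⟨-, -, -, -, -, c6, -⟩ := hAC V G X (A ∪ ini d (n1 + n))
      ((hA.union (ini_finite d _)).countable)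
    have h3 : acl G A1 ⊆ acl G (A ∪ ini d (n1 + n)) :=
      a3 _ (Set.union_subset_union_right A (ini_mono (Nat.le_add_right _ _)))
    rw [h1, c6 _ ι (bb (n1 + n)) (hyacl.trans h3), hrks]
    exact heq _ (Nat.le_add_right _ _)
  · have h1 : A' ∪ Set.range d = (A ∪ Set.range d) ∪ Set.range y.1 := by
      rw [hA', hA1]
      have h2 : ini d n1 ∪ Set.range d = Set.range d :=
        Set.union_eq_self_of_subset_left (ini_subset d n1)
      rw [Set.union_right_comm, Set.union_assoc A, h2]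
    obtain ⟨-, -, -, -, -, c6, -⟩ := hAC V G X (A ∪ Set.range d) hRc
    have h3 : acl G A1 ⊆ acl G (A ∪ Set.range d) := a3 _ (hsub n1)
    rw [h1, c6 _ ι (bb (n1 + n)) (hyacl.trans h3), hrks]
    exact hne _ (Nat.le_add_right _ _)

end Pool.Agent.Helper90.TS

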